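import Pool.Agent.H0.Pol.Defs
import Pool.Agent.H0.Pol.Main

set_option autoImplicit false
open Cardinal

namespace Pool.Agent.Results.MP_cf3da8_lc.Negative

open Pool.Agent.Pol

/-- First part: if `λ` is a singular limit of measurable cardinals and `2^λ = λ⁺`, then there is
`α < λ⁺` for which `(λ⁺ over λ) → (λ⁺ α; λ λ)` fails. Second part: more generally, for every
cardinal `λ > 2^ℵ₀` with `2^λ = λ⁺` it fails for `α = (2^ℵ₀)⁺`. -/
theorem result :
    (∀ lam : Cardinal.{0}, lam.ord.cof < lam →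
      (∀ μ : Cardinal.{0}, μ < lam → ∃ κ : Cardinal.{0}, μ < κ ∧ κ < lam ∧ IsMeasurableCard κ) →
      (2 : Cardinal.{0}) ^ lam = Order.succ lam →
      ∃ α : Ordinal.{0}, α < (Order.succ lam).ord ∧ ¬ PolRel lam α) ∧
    (∀ lam : Cardinal.{0}, (2 : Cardinal.{0}) ^ ℵ₀ < lam →
      (2 : Cardinal.{0}) ^ lam = Order.succ lam →
      (Order.succ ((2 : Cardinal.{0}) ^ ℵ₀)).ord < (Order.succ lam).ord ∧
      ¬ PolRel lam (Order.succ ((2 : Cardinal.{0}) ^ ℵ₀)).ord) := by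
  have key : ∀ lam : Cardinal.{0}, (2 : Cardinal.{0}) ^ ℵ₀ < lam →
      (2 : Cardinal.{0}) ^ lam = Order.succ lam →
      (Order.succ ((2 : Cardinal.{0}) ^ ℵ₀)).ord < (Order.succ lam).ord ∧
      ¬ PolRel lam (Order.succ ((2 : Cardinal.{0}) ^ ℵ₀)).ord :=
    fun lam h1 h2 => ⟨Cardinal.ord_lt_ord.2 (Order.succ_lt_succ h1), main h1 h2⟩
  refine ⟨fun lam hcof hlim h2 => ?_, key⟩
  have h0 : 0 < lam := lt_of_le_of_lt (by simp) hcof
  obtain ⟨κ, -, hκ, hm⟩ := hlim 0 h0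
  exact ⟨_, key lam ((measurable_gt hm).trans hκ) h2⟩

end Pool.Agent.Results.MP_cf3da8_lc.Negative
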